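import Pool.Agent.U471.RP.CD
import Pool.Agent.Results.MP_d02c56_nt.FourierUniformity

set_option autoImplicit false

/-!
# The basins of the cycles of the 3x+1 map along all the shifts near the values of real polynomials

Let `f_1, …, f_k` be real polynomials of degrees at most `d_i` whose coefficient of `t ^ (d_i)` lies between `1 / B` and `B`,
with `|f_i(m)| ≤ N - W - 1` for `m = 1, …, L_i`, where `B (L_i) ^ (d_i) ≥ N`; the other coefficients are arbitrary. Let
`S_1, …, S_k` be sets of integers which are invariant under the `3x+1` map and its inverse (for example the set of the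
integers whose trajectories enter one of some given cycles), with densities `δ_i`. For almost all vectors
`(u_1, …, u_k)`, `u_i ≤ L_i`, ALL the integer vectors `b` with `|b_i - f_i(u_i)| ≤ W` are such that the condition
`x + b_i ∈ S_i` for all `i` has among the `x` in `(N, 2 N]` the frequency `∏ δ_i`, and is uncorrelated with every given bounded
function `G x`; uniformly in the `f_i`, in the `S_i` and in `G`. So all the cycles are known if for infinitely many `N`
there are such polynomials for which for a positive proportion of the vectors `u` only `o(N)` of the `x` in `(N, 2 N]` have all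
the `x + b_i` in the basins of unknown cycles, for SOME `b` with `|b_i - f_i(u_i)| ≤ W`.

Proof: an inverse theorem for Weyl sums (`Pool.Agent.H373R2.NB.IW_all`) shows that the integers near the values have, up to a
constant factor, the least possible additive energy of some order (`Pool.Agent.U471.RP.energy_real`); the Fourier uniformity
of the invariant sets (starting file `FourierUniformity` of MP_d02c56_nt) and the theorem `Pool.Agent.Y834.CD.finite_form` on
families of bounded energy then apply for every distance between `b_i` and the integer part of `f_i(u_i)`.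
-/

namespace Pool.Agent.Results.MP_edb5be_nt.RealPolynomialShifts

open Filter Topology Polynomial

/-- The 3x+1 map on the integers. -/
def T (x : ℤ) : ℤ := if x % 2 = 0 then x / 2 else (3 * x + 1) / 2

/-- `S` is invariant under `T` and its inverse, for example the set of the integers whose trajectory
enters a given cycle. -/
def Invariant (S : Set ℤ) : Prop := ∀ x : ℤ, x ∈ S ↔ T x ∈ S

/-- Among the integers of sign `s` the set `S` has natural density `δ`. -/
def HasDensity (s : ℤ) (S : Set ℤ) (δ : ℝ) : Prop :=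
  Tendsto (fun N : ℕ => ({n : ℤ | 0 < s * n ∧ s * n ≤ N ∧ n ∈ S}.ncard : ℝ) / N) atTop (𝓝 δ)

/-- The real polynomials `f` of degree at most `d`, with `1 / B ≤ f_d ≤ B` for the coefficient `f_d` of `t ^ d`, and with
`|f(m)| ≤ N - W - 1` for `m = 1, …, L`, where `B L ^ d ≥ N`. -/
structure Normal (d B N W L : ℕ) (f : ℝ[X]) : Prop where
  degree : f.natDegree ≤ d
  lower : 1 / (B : ℝ) ≤ f.coeff d
  upper : f.coeff d ≤ B
  length : N ≤ B * L ^ d
  values : ∀ m ∈ Finset.Icc 1 L, |f.eval (m : ℝ)| + W + 1 ≤ N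

/-- The number of the `x` with `N < x ≤ 2 N` such that `s (x + b i)` is in `U` for all `i`. -/
noncomputable def hits (s : ℤ) (N : ℕ) {k : ℕ} (b : Fin k → ℤ) (U : Set ℤ) : ℕ :=
  {x : ℕ | N < x ∧ x ≤ 2 * N ∧ ∀ i, s * (x + b i) ∈ U}.ncard

/-- The sum over `N < x ≤ 2 N` of `G x` times the difference of the indicator function of the event
that `s (x + b i)` is in `S i` for all `i`, and the product of the numbers `δ i`. -/
noncomputable def deviation (s : ℤ) (N : ℕ) (G : ℕ → ℝ) {k : ℕ} (b : Fin k → ℤ) (S : Fin k → Set ℤ)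
    (δ : Fin k → ℝ) : ℝ :=
  ∑ x ∈ Finset.Ioc N (2 * N),
    G x * (∏ i, (S i).indicator (fun _ => (1 : ℝ)) (s * (x + b i)) - ∏ i, δ i)

/-- The integer vector `b` is near the vector of the values `f i (u i + 1)`: `|b i - f i (u i + 1)| ≤ W` for all `i`.
(The index `u i` runs from `0` to `L i - 1`, so that `u i + 1` runs from `1` to `L i`.) -/
def Near {k : ℕ} (W : ℕ) {L : Fin k → ℕ} (f : Fin k → ℝ[X]) (u : ∀ i, Fin (L i)) (b : Fin k → ℤ) : Prop :=
  ∀ i, |(b i : ℝ) - (f i).eval ((((u i : ℕ) + 1 : ℕ)) : ℝ)| ≤ W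

/-- The vectors `u` such that for SOME integer vector `b` near the values the deviation is larger than `ε N`. -/
def Exceptional (s : ℤ) (ε : ℝ) (N W : ℕ) (G : ℕ → ℝ) {k : ℕ} {L : Fin k → ℕ} (f : Fin k → ℝ[X])
    (S : Fin k → Set ℤ) (δ : Fin k → ℝ) : Set (∀ i, Fin (L i)) :=
  {u | ∃ b : Fin k → ℤ, Near W f u b ∧ ε * N < |deviation s N G b S δ|}

/-- The union of the five known cycles. -/
def Known : Finset ℤ := {1, 2, 0, -1, -5, -7, -10, -17, -25, -37, -55, -82, -41, -61, -91, -136,
  -68, -34}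

/-- The integers whose trajectory enters a cycle other than the five known ones. -/
def Other : Set ℤ :=
  {x | ∃ j p : ℕ, 1 ≤ p ∧ T^[p] (T^[j] x) = T^[j] x ∧ T^[j] x ∉ Known}

/-- For infinitely many `N` there are real polynomials as above such that for a positive proportion of the vectors `u` some
integer vector `b` near the values is such that only `o(N)` of the integers `x` in `(N, 2 N]` have all the `s (x + b i)`
in `U`. -/
def Rare (s : ℤ) (U : Set ℤ) : Prop :=
  ∃ (k : ℕ) (d : Fin k → ℕ) (B W : ℕ) (κ : ℝ) (ψ : ℕ → ℝ), (∀ i, 1 ≤ d i) ∧ 0 < κ ∧ Tendsto ψ atTop (𝓝 0) ∧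
    ∃ᶠ N : ℕ in atTop, ∃ (L : Fin k → ℕ) (f : Fin k → ℝ[X]), (∀ i, 0 < L i) ∧
      (∀ i, Normal (d i) B N W (L i) (f i)) ∧
      κ * ∏ i, (L i : ℝ) ≤
        ({u : ∀ i, Fin (L i) | ∃ b : Fin k → ℤ, Near W f u b ∧ (hits s N b U : ℝ) ≤ ψ N * N}.ncard : ℝ)

/-! ### proofs -/

open Pool.Agent.Y834.CD Finset

theorem known_closed : ∀ x ∈ Known, T x ∈ Known := by decide

theorem known_iter (j : ℕ) : ∀ x ∈ Known, T^[j] x ∈ Known := by
  induction j with
  | zero => intro x hx; exact hx
  | succ j ih => intro x hx; rw [Function.iterate_succ_apply]; exact ih _ (known_closed x hx)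

theorem other_inv : Invariant Other := by
  intro x
  constructor
  · rintro ⟨j, p, hp, h1, h2⟩
    cases j with
    | zero =>
      refine ⟨0, p, hp, ?_, ?_⟩
      · change T^[p] (T x) = T x
        rw [← Function.iterate_succ_apply, Function.iterate_succ_apply']
        exact congrArg T h1
      · intro h3
        apply h2
        change T x ∈ Known at h3
        change x ∈ Known
        have h4 := known_iter (p - 1) _ h3
        rw [← Function.iterate_succ_apply, show (p - 1).succ = p by omega] at h4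
        have h5 : T^[p] x = x := h1
        rwa [h5] at h4
    | succ j =>
      rw [Function.iterate_succ_apply] at h1 h2
      exact ⟨j, p, hp, h1, h2⟩
  · rintro ⟨j, p, hp, h1, h2⟩
    exact ⟨j + 1, p, hp, by rw [Function.iterate_succ_apply]; exact h1,
      by rw [Function.iterate_succ_apply]; exact h2⟩

theorem inv_C {S : Set ℤ} (hS : Invariant S) :
    Pool.Agent.Results.MP_d02c56_nt.FourierUniformity.Invariant S := by
  intro x
  unfold Pool.Agent.Results.MP_d02c56_nt.FourierUniformity.C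
  by_cases h : x % 2 = 0
  · rw [if_pos h]
    have := hS x
    unfold T at this
    rwa [if_pos h] at this
  · rw [if_neg h]
    have h1 := hS x
    have h2 := hS (3 * x + 1)
    have h3 : (3 * x + 1) % 2 = 0 := by omega
    unfold T at h1 h2
    rw [if_neg h] at h1
    rw [if_pos h3] at h2
    rw [h1, h2]

theorem density_mem {s : ℤ} (hs : s = 1 ∨ s = -1) {S : Set ℤ} {δ : ℝ} (h : HasDensity s S δ) :
    0 ≤ δ ∧ δ ≤ 1 := by
  constructor
  · exact ge_of_tendsto' h (fun N => by positivity)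
  · refine le_of_tendsto' h (fun N => ?_)
    apply div_le_one_of_le₀ _ (Nat.cast_nonneg _)
    have h1 : {n : ℤ | 0 < s * n ∧ s * n ≤ N ∧ n ∈ S} ⊆
        (((Finset.Icc 1 N).image (fun n : ℕ => s * (n : ℤ)) : Finset ℤ) : Set ℤ) := by
      rintro n ⟨h1, h2, -⟩
      rw [Finset.mem_coe, Finset.mem_image]
      rcases hs with rfl | rfl
      · exact ⟨n.toNat, by rw [Finset.mem_Icc]; omega, by omega⟩
      · exact ⟨(-n).toNat, by rw [Finset.mem_Icc]; omega, by omega⟩
    have h2 := Set.ncard_le_ncard h1 (Finset.finite_toSet _)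
    rw [Set.ncard_coe_finset] at h2
    have h3 : ((Finset.Icc 1 N).image (fun n : ℕ => s * (n : ℤ))).card ≤ N := by
      refine card_image_le.trans ?_
      simp
    exact_mod_cast h2.trans h3

theorem hits_eq (s : ℤ) (N : ℕ) {k : ℕ} (b : Fin k → ℤ) (U : Set ℤ) :
    (hits s N b U : ℝ) = ∑ x ∈ Ioc N (2 * N), ∏ l, U.indicator (fun _ => (1 : ℝ)) (s * (x + b l)) := by
  classical
  have h1 : ∀ x : ℕ, ∏ l, U.indicator (fun _ => (1 : ℝ)) (s * (x + b l)) =
      if ∀ i, s * (x + b i) ∈ U then (1 : ℝ) else 0 := by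
    intro x
    simp only [Set.indicator_apply]
    rw [Finset.prod_ite_zero]
    simp
  have h2 : {x : ℕ | N < x ∧ x ≤ 2 * N ∧ ∀ i, s * (x + b i) ∈ U} =
      (((Ioc N (2 * N)).filter (fun x : ℕ => ∀ i, s * (x + b i) ∈ U) : Finset ℕ) : Set ℕ) := by
    ext x
    simp only [Set.mem_ofPred_eq, coe_filter, Finset.mem_Ioc, and_assoc]
  unfold hits
  rw [h2, Set.ncard_coe_finset, card_filter]
  push_cast
  exact sum_congr rfl fun x _ => (h1 x).symm

theorem deviation_one (s : ℤ) (N : ℕ) {k : ℕ} (b : Fin k → ℤ) (U : Set ℤ) (δ : ℝ) :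
    deviation s N (fun _ => 1) b (fun _ => U) (fun _ => δ) = hits s N b U - δ ^ k * N := by
  unfold deviation
  rw [hits_eq]
  simp only [one_mul, prod_const, card_univ, Fintype.card_fin]
  rw [sum_sub_distrib, sum_const, Nat.card_Ioc, nsmul_eq_mul, show 2 * N - N = N by omega]
  ring

theorem uniform {s : ℤ} (hs : s = 1 ∨ s = -1) {ε : ℝ} (hε : 0 < ε) : ∃ N₀ : ℕ, ∀ S : Set ℤ, Invariant S →
    ∃ δ : ℝ, HasDensity s S δ ∧ ∀ N : ℕ, N₀ ≤ N → ∀ α : ℝ,
      ‖es (fun n => S.indicator (fun _ => (1 : ℝ)) (s * n)) δ N α‖ ≤ ε * N := by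
  obtain ⟨N₀, H⟩ := (Pool.Agent.Results.MP_d02c56_nt.FourierUniformity.result.1 s hs).2.1 ε hε
  refine ⟨N₀, fun S hS => ?_⟩
  obtain ⟨δ, h1, h2⟩ := H S (inv_C hS)
  exact ⟨δ, h1, fun N hN α => h2 N hN α⟩

/-- the main theorem -/
theorem general {s : ℤ} (hs : s = 1 ∨ s = -1) (k : ℕ) (d : Fin k → ℕ) (hd : ∀ i, 1 ≤ d i) (B W : ℕ) {ε : ℝ}
    (hε : 0 < ε) : ∃ N₀ : ℕ,
    ∀ S : Fin k → Set ℤ, (∀ i, Invariant (S i)) → ∃ δ : Fin k → ℝ, (∀ i, HasDensity s (S i) (δ i)) ∧
    ∀ N : ℕ, N₀ ≤ N → ∀ (L : Fin k → ℕ) (f : Fin k → ℝ[X]), (∀ i, Normal (d i) B N W (L i) (f i)) →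
    ∀ G : ℕ → ℝ, (∀ x, |G x| ≤ 1) →
      ((Exceptional (L := L) s ε N W G f S δ).ncard : ℝ) ≤ ε * ∏ i, (L i : ℝ) := by
  classical
  obtain ⟨ε₁, hε₁, hmain⟩ := Pool.Agent.U471.RP.cd_real k d hd B W hε
  obtain ⟨N₀, H⟩ := uniform hs (show 0 < ε₁ / 3 by positivity)
  refine ⟨N₀ + 1, fun S hS => ?_⟩
  choose δ hδ hu using fun i => H (S i) (hS i)
  refine ⟨δ, hδ, fun N hN L f hf G hG => ?_⟩
  have hNpos : 0 < N := by omega
  have hset : (Exceptional (L := L) s ε N W G f S δ) =
      (((univ : Finset (∀ i, Fin (L i))).filter (fun u => u ∈ Exceptional (L := L) s ε N W G f S δ) :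
        Finset (∀ i, Fin (L i))) : Set (∀ i, Fin (L i))) := by
    ext u
    simp
  rw [hset, Set.ncard_coe_finset]
  refine hmain N hNpos (fun l n => (S l).indicator (fun _ => (1 : ℝ)) (s * n)) δ
    (fun l n => by
      simp only [Set.indicator_apply]
      split_ifs <;> norm_num)
    (fun l => density_mem hs (hδ l))
    (fun l α => by
      have h1 := hu l (3 * N) (by omega) α
      push_cast at h1
      linarith)
    L f (fun i => ⟨(hf i).degree, (hf i).lower, (hf i).upper, (hf i).length, (hf i).values⟩) G hG _ ?_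
  intro u hu'
  rw [mem_filter] at hu'
  exact hu'.2

theorem reduction {s : ℤ} (hs : s = 1 ∨ s = -1) {U : Set ℤ} (hU : Invariant U) (h : Rare s U) :
    ∀ x : ℤ, 0 < s * x → x ∉ U := by
  classical
  intro x hx hxU
  obtain ⟨k, d, B, W, κ, ψ, hd1, hκ, hψ, hfr⟩ := h
  obtain ⟨δ, hδ, hd⟩ := Pool.Agent.Results.MP_d02c56_nt.FourierUniformity.dens_pos hs (inv_C hU) ⟨x, hxU, hx⟩
  have hd' : HasDensity s U δ := hd
  set ε : ℝ := min (κ / 2) (δ ^ k / 2) with hε
  have hε0 : 0 < ε := by rw [hε]; positivity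
  obtain ⟨N₀, H⟩ := general hs k d hd1 B W hε0
  obtain ⟨δ', hδ', H'⟩ := H (fun _ => U) (fun _ => hU)
  have hδδ : ∀ i, δ' i = δ := fun i => tendsto_nhds_unique (hδ' i) hd'
  have hψ' : ∀ᶠ N : ℕ in atTop, ψ N < δ ^ k / 2 := (tendsto_order.1 hψ).2 _ (by positivity)
  obtain ⟨N, ⟨L, f, hL, hf, hcard⟩, hψN, hN⟩ := (hfr.and_eventually (hψ'.and (eventually_ge_atTop (N₀ + 1)))).exists
  have hNpos : (0 : ℝ) < N := by exact_mod_cast (by omega : 0 < N)
  have hex := H' N (by omega) L f hf (fun _ => 1) (fun _ => by simp)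
  rw [show δ' = fun _ => δ from funext hδδ] at hex
  have hprod : 0 < ∏ i, (L i : ℝ) := prod_pos fun i _ => by exact_mod_cast hL i
  have hlt : ((Exceptional (L := L) s ε N W (fun _ => 1) f (fun _ => U) (fun _ => δ)).ncard : ℝ) <
      ({u : ∀ i, Fin (L i) | ∃ b : Fin k → ℤ, Near W f u b ∧ (hits s N b U : ℝ) ≤ ψ N * N}.ncard : ℝ) := by
    refine lt_of_le_of_lt hex (lt_of_lt_of_le ?_ hcard)
    apply mul_lt_mul_of_pos_right _ hprod
    calc ε ≤ κ / 2 := min_le_left _ _
      _ < κ := by linarith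
  have hsub : ¬ {u : ∀ i, Fin (L i) | ∃ b : Fin k → ℤ, Near W f u b ∧ (hits s N b U : ℝ) ≤ ψ N * N} ⊆
      Exceptional (L := L) s ε N W (fun _ => 1) f (fun _ => U) (fun _ => δ) := by
    intro hsub
    have := Set.ncard_le_ncard hsub (Set.toFinite _)
    have h2 : ({u : ∀ i, Fin (L i) | ∃ b : Fin k → ℤ, Near W f u b ∧ (hits s N b U : ℝ) ≤ ψ N * N}.ncard : ℝ) ≤
      ((Exceptional (L := L) s ε N W (fun _ => 1) f (fun _ => U) (fun _ => δ)).ncard : ℝ) := by exact_mod_cast this
    linarith
  rw [Set.not_subset] at hsub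
  obtain ⟨u, ⟨b, hb, hv1⟩, hv2⟩ := hsub
  have hv3 : ¬ ε * N < |deviation s N (fun _ => 1) b (fun _ => U) (fun _ => δ)| := fun h => hv2 ⟨b, hb, h⟩
  rw [not_lt, deviation_one] at hv3
  have h3 := (abs_le.1 hv3).1
  have h5 : ε * N ≤ δ ^ k / 2 * N := mul_le_mul_of_nonneg_right (min_le_right _ _) hNpos.le
  have h6 : ψ N * N < δ ^ k / 2 * N := mul_lt_mul_of_pos_right hψN hNpos
  linarith

/-- (1) Let `s` be a sign. For all `k`, `d i ≥ 1`, `B`, `W` and `ε > 0` there is `N₀` such that invariant sets `S 1, ..., S k`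
have among the integers of sign `s` densities `δ i`, and for all `N ≥ N₀`, all `L i`, ALL real polynomials `f i` with
`Normal (d i) B N W (L i) (f i)`, and every function `G` with values in `[-1, 1]`: for all but at most the proportion `ε` of
the vectors `u`, `0 ≤ u i < L i`, ALL the integer vectors `b` with `|b i - f i (u i + 1)| ≤ W` for all `i` are such that the
sum of `G x` over the `x` in `(N, 2 N]` with `s (x + b i) ∈ S i` for all `i` is the product of the densities times the sum
of `G x` over all `x` in `(N, 2 N]`, up to `ε N`.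
(2) An invariant set contains no integer of sign `s` if for infinitely many `N` there are such polynomials for which, for a
positive proportion of the vectors `u`, SOME integer vector `b` near the values is such that only `o(N)` of the `x` in
`(N, 2 N]` have all the `s (x + b i)` in the set.
(3) If this holds for both signs and the set of the integers whose trajectories enter a cycle other than the five known
ones, then there is no such cycle. -/
theorem result :
    (∀ s : ℤ, (s = 1 ∨ s = -1) → ∀ (k : ℕ) (d : Fin k → ℕ), (∀ i, 1 ≤ d i) → ∀ (B W : ℕ) (ε : ℝ), 0 < ε → ∃ N₀ : ℕ,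
      ∀ S : Fin k → Set ℤ, (∀ i, Invariant (S i)) → ∃ δ : Fin k → ℝ, (∀ i, HasDensity s (S i) (δ i)) ∧
      ∀ N : ℕ, N₀ ≤ N → ∀ (L : Fin k → ℕ) (f : Fin k → ℝ[X]), (∀ i, Normal (d i) B N W (L i) (f i)) →
      ∀ G : ℕ → ℝ, (∀ x, |G x| ≤ 1) →
        ((Exceptional (L := L) s ε N W G f S δ).ncard : ℝ) ≤ ε * ∏ i, (L i : ℝ)) ∧
    (∀ s : ℤ, (s = 1 ∨ s = -1) → ∀ U : Set ℤ, Invariant U → Rare s U → ∀ x : ℤ, 0 < s * x → x ∉ U) ∧
    (Rare 1 Other → Rare (-1) Other → ∀ (x : ℤ) (p : ℕ), 1 ≤ p → T^[p] x = x → x ∈ Known) := by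
  refine ⟨fun s hs k d hd B W ε hε => general hs k d hd B W hε, fun s hs U hU h => reduction hs hU h,
    fun h1 h2 x p hp hx => ?_⟩
  by_contra hcon
  have hmem : x ∈ Other := ⟨0, p, hp, hx, hcon⟩
  rcases lt_trichotomy x 0 with h | h | h
  · exact reduction (Or.inr rfl) other_inv h2 x (by omega) hmem
  · subst h
    exact hcon (by decide)
  · exact reduction (Or.inl rfl) other_inv h1 x (by omega) hmem

end Pool.Agent.Results.MP_edb5be_nt.RealPolynomialShifts
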